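import Pool.Agent.Helper23.EC.DGoalsN

/-!
# MP_ecc237_nt, Part D, packet N10: Fubini for the two families.
-/

set_option autoImplicit false

open MeasureTheory Filter Topology Set

namespace Pool.Agent.Helper53.EC.D_N10

open EC237

/-- Reindexing of `Tri`. -/
def eTri : (ℤ × ℤ × ℤ) × (ℤ × ℤ × ℤ) ≃ Tri where
  toFun z := ((z.2.1, z.1.1), (z.2.2.1, z.1.2.1), (z.2.2.2, z.1.2.2))
  invFun p := ((p.1.2, p.2.1.2, p.2.2.2), (p.1.1, p.2.1.1, p.2.2.1))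
  left_inv _ := rfl
  right_inv _ := rfl

/-- The rotation of the first coordinates. -/
def rot : (ℤ × ℤ × ℤ) ≃ (ℤ × ℤ × ℤ) where
  toFun n := (n.2.1, n.2.2, -(n.1 + n.2.1 + n.2.2))
  invFun n := (-(n.1 + n.2.1 + n.2.2), n.1, n.2.1)
  left_inv n := by
    obtain ⟨a, b, c⟩ := n
    refine Prod.ext ?_ rfl
    simp only
    ring
  right_inv n := by
    obtain ⟨a, b, c⟩ := n
    refine Prod.ext ?_ (Prod.ext ?_ ?_) <;> simp only
    ring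

theorem fib (hN9 : N9) (y : ℝ) (hy : 0 < y) (r1 r2 r3 r4 a1 a2 a3 a4 : ℤ)
    (hr : (r1 + r2 + r3 + r4) % 6 = 0) (ha : a1 + a2 + a3 + a4 = 0) (m : ℤ × ℤ × ℤ) :
    HasSum (fun n : ℤ × ℤ × ℤ => if ClT r1 r2 r3 (eTri (m, n)) then
      t2 (y:ℂ) ((eTri (m, n)).1, a1) ((eTri (m, n)).2.1, a2) ((eTri (m, n)).2.2, a3)
        (k4 (eTri (m, n)), a4) else 0)
      (PM y (r1, m.1, a1) (r2, m.2.1, a2) (r3, m.2.2, a3) (r4, -(m.1 + m.2.1 + m.2.2), a4) +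
        VM y (r1, m.1, a1) (r2, m.2.1, a2) (r3, m.2.2, a3) (r4, -(m.1 + m.2.1 + m.2.2), a4) +
      (PM y (r2, m.2.1, a2) (r3, m.2.2, a3) (r4, -(m.1 + m.2.1 + m.2.2), a4) (r1, m.1, a1) +
        VM y (r2, m.2.1, a2) (r3, m.2.2, a3) (r4, -(m.1 + m.2.1 + m.2.2), a4) (r1, m.1, a1))) := by
  have h1 := hN9 y hy (r1, m.1, a1) (r2, m.2.1, a2) (r3, m.2.2, a3)
    (r4, -(m.1 + m.2.1 + m.2.2), a4) hr (by simp) ha
  have h2 := hN9 y hy (r2, m.2.1, a2) (r3, m.2.2, a3) (r4, -(m.1 + m.2.1 + m.2.2), a4)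
    (r1, m.1, a1) (by simpa using (by omega : (r2 + r3 + r4 + r1) % 6 = 0)) (by simp)
    (by simpa using (by omega : a2 + a3 + a4 + a1 = 0))
  have h3 := (rot.hasSum_iff).2 h2
  refine Eq.mp (congrArg (fun f => HasSum f _) (funext fun n => ?_)) (h1.add h3)
  obtain ⟨n1, n2, n3⟩ := n
  obtain ⟨m1, m2, m3⟩ := m
  have e4 : k4 (eTri ((m1, m2, m3), (n1, n2, n3))) = (-(n1 + n2 + n3), -(m1 + m2 + m3)) := rfl
  have e1 : -(n2 + n3 + -(n1 + n2 + n3)) = n1 := by ring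
  simp only [Function.comp, rot, Equiv.coe_fn_mk, sv, e4, e1]
  simp only [ClT, eTri, Equiv.coe_fn_mk, InCl]
  by_cases h : (m1 + 3 * n1 - r1) % 6 = 0 ∧ (m2 + 3 * n2 - r2) % 6 = 0 ∧ (m3 + 3 * n3 - r3) % 6 = 0
  · have h' : (m2 + 3 * n2 - r2) % 6 = 0 ∧ (m3 + 3 * n3 - r3) % 6 = 0 ∧
        (-(m1 + m2 + m3) + 3 * -(n1 + n2 + n3) - r4) % 6 = 0 := by omega
    rw [if_pos h, if_pos h, if_pos h']
    simp only [t2, Tt, map_add]
  · have h' : ¬ ((m2 + 3 * n2 - r2) % 6 = 0 ∧ (m3 + 3 * n3 - r3) % 6 = 0 ∧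
        (-(m1 + m2 + m3) + 3 * -(n1 + n2 + n3) - r4) % 6 = 0) := by omega
    rw [if_neg h, if_neg h, if_neg h', add_zero]

theorem thm (hB7 : EC237.B7) (hN9 : EC237.N9) : EC237.N10 := by
  intro y hy
  obtain ⟨-, -, hA, hB, -⟩ := hB7 y hy
  refine ⟨?_, ?_⟩
  · have h := (eTri.hasSum_iff).2 hA.hasSum
    exact h.prod_fiberwise fun m => fib hN9 y hy 1 1 1 3 1 (-1) 1 (-1) (by norm_num) (by norm_num) m
  · have h := (eTri.hasSum_iff).2 hB.hasSum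
    exact h.prod_fiberwise fun m => fib hN9 y hy 1 5 5 1 1 (-1) 0 0 (by norm_num) (by norm_num) m

end Pool.Agent.Helper53.EC.D_N10
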